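import Pool.Agent.H28.RC.Basic

/-!
# The ideals `x M⁻¹`
-/

set_option autoImplicit false

open NumberField NumberField.InfinitePlace NumberField.Units
  NumberField.Units.dirichletUnitTheorem MeasureTheory Set Filter Complex
open scoped nonZeroDivisors ENNReal

namespace Pool.Agent.H92.RC

open Pool.Agent.H28.RC Pool.Agent.H25.HK Pool.Agent.H25

section

variable {K : Type} [Field K] [NumberField K]

lemma exists_idl (M : FI K) (hM : M ≠ 0) {x : K} (hx : x ∈ M) :
    ∃ I : Ideal (𝓞 K), (I : FI K) * M = FractionalIdeal.spanSingleton (𝓞 K)⁰ x := by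
  have hle : FractionalIdeal.spanSingleton (𝓞 K)⁰ x * M⁻¹ ≤ 1 := by
    have h1 : FractionalIdeal.spanSingleton (𝓞 K)⁰ x ≤ M :=
      FractionalIdeal.spanSingleton_le_iff_mem.mpr hx
    calc FractionalIdeal.spanSingleton (𝓞 K)⁰ x * M⁻¹ ≤ M * M⁻¹ := mul_le_mul_left h1 _
      _ = 1 := mul_inv_cancel₀ hM
  obtain ⟨I, hI⟩ := FractionalIdeal.le_one_iff_exists_coeIdeal.mp hle
  refine ⟨I, ?_⟩
  rw [hI, mul_assoc, inv_mul_cancel₀ hM, mul_one]

lemma idl_mul (M : FI K) (hM : M ≠ 0) {x : K} (hx : x ∈ M) :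
    (idl K M x : FI K) * M = FractionalIdeal.spanSingleton (𝓞 K)⁰ x := by
  have h := exists_idl M hM hx
  unfold idl
  rw [dif_pos h]
  exact h.choose_spec

lemma coe_inj (M : FI K) (hM : M ≠ 0) {I J : Ideal (𝓞 K)}
    (h : (I : FI K) * M = (J : FI K) * M) : I = J :=
  FractionalIdeal.coeIdeal_injective (mul_right_cancel₀ hM h)

lemma idl_unique (M : FI K) (hM : M ≠ 0) (J : Ideal (𝓞 K)) (x : K)
    (hJ : (J : FI K) * M = FractionalIdeal.spanSingleton (𝓞 K)⁰ x) : idl K M x = J := by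
  have h : ∃ I : Ideal (𝓞 K), (I : FI K) * M = FractionalIdeal.spanSingleton (𝓞 K)⁰ x :=
    ⟨J, hJ⟩
  have h2 : (idl K M x : FI K) * M = FractionalIdeal.spanSingleton (𝓞 K)⁰ x := by
    unfold idl
    rw [dif_pos h]
    exact h.choose_spec
  exact coe_inj M hM (h2.trans hJ.symm)

lemma coe_span (a : 𝓞 K) :
    ((Ideal.span {a} : Ideal (𝓞 K)) : FI K) =
      FractionalIdeal.spanSingleton (𝓞 K)⁰ (a : K) :=
  FractionalIdeal.coeIdeal_span_singleton a

lemma idl_smul (M : FI K) (hM : M ≠ 0) (a : 𝓞 K) {x : K} (hx : x ∈ M) :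
    idl K M ((a : K) * x) = Ideal.span {a} * idl K M x := by
  apply idl_unique M hM
  rw [FractionalIdeal.coeIdeal_mul, mul_assoc, idl_mul M hM hx, coe_span,
    FractionalIdeal.spanSingleton_mul_spanSingleton]

lemma coe_mul_le (M : FI K) (J : Ideal (𝓞 K)) : (J : FI K) * M ≤ M := by
  have h3 : ((J : Ideal (𝓞 K)) : FI K) * M ≤ 1 * M :=
    mul_le_mul_left FractionalIdeal.coeIdeal_le_one M
  rwa [one_mul] at h3

end

/-- (ID) the ideals `x M⁻¹`. -/
theorem pf_ID : T_ID := by
  intro K _ _ M hM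
  refine ⟨fun x hx => idl_mul M hM hx, idl_unique M hM, fun a x hx => idl_smul M hM a hx,
    fun x hx => ?_, fun J hJ x hx => ?_, ?_, fun t ht x hx => ?_⟩
  · have h1 := idl_mul M hM hx
    constructor
    · intro h
      rw [h, FractionalIdeal.coeIdeal_bot, zero_mul] at h1
      exact FractionalIdeal.spanSingleton_eq_zero_iff.mp h1.symm
    · intro h
      rw [h, FractionalIdeal.spanSingleton_zero, mul_eq_zero] at h1
      rcases h1 with h1 | h1
      · rw [h]
        simpa using h1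
      · exact absurd h1 hM
  · have hxM : x ∈ M := coe_mul_le M J hx
    refine ⟨hxM, ?_⟩
    have hJM : (J : FI K) * M ≠ 0 := by
      refine mul_ne_zero ?_ hM
      simpa using hJ
    apply idl_unique M hM
    rw [FractionalIdeal.coeIdeal_mul, mul_comm (J : FI K), mul_assoc]
    exact idl_mul _ hJM hx
  · by_contra h
    push Not at h
    apply hM
    rw [FractionalIdeal.eq_zero_iff]
    intro x hx
    by_contra hx0
    exact h x hx0 hx
  · have hM' : FractionalIdeal.spanSingleton (𝓞 K)⁰ t * M ≠ 0 := by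
      refine mul_ne_zero ?_ hM
      rwa [Ne, FractionalIdeal.spanSingleton_eq_zero_iff]
    apply idl_unique _ hM'
    rw [mul_left_comm, idl_mul M hM hx, FractionalIdeal.spanSingleton_mul_spanSingleton]

end Pool.Agent.H92.RC
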