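import Pool.Agent.H28.RC.Targets2

/-!
# MP_347b49_nt: module TWT, twists of ray class characters by Dirichlet characters
-/

set_option autoImplicit false

open NumberField NumberField.InfinitePlace Complex

namespace Pool.Agent.H92.RC

open Pool.Agent.H28.RC Pool.Agent.H25.HK Pool.Agent.H25

section norms

variable {K : Type} [Field K] [NumberField K]

/-- the norm of a totally positive element is positive -/
theorem norm_pos_of_totpos (x : K) (hx : x ≠ 0) (h : ∀ v : RP K, 0 < re v x) :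
    0 < Algebra.norm ℚ x := by
  classical
  have h1 : ∀ w : InfinitePlace K, ∃ r : ℝ, 0 < r ∧
      ∏ φ ∈ (Finset.univ.filter fun φ : K →+* ℂ => InfinitePlace.mk φ = w), φ x = (r : ℂ) := by
    intro w
    by_cases hw : IsReal w
    · have e : (Finset.univ.filter fun φ : K →+* ℂ => InfinitePlace.mk φ = w) = {w.embedding} := by
        ext φ
        rw [Finset.mem_filter, Finset.mem_singleton]
        constructor
        · rintro ⟨-, h2⟩
          rw [← mk_embedding w, mk_eq_iff] at h2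
          rcases h2 with h2 | h2
          · exact h2
          · rw [← conjugate_embedding_eq_of_isReal hw, ← h2]
            exact (star_star φ).symm
        · rintro rfl
          exact ⟨Finset.mem_univ _, mk_embedding w⟩
      refine ⟨re ⟨w, hw⟩ x, h _, ?_⟩
      rw [e, Finset.prod_singleton]
      exact (embedding_of_isReal_apply hw x).symm
    · have hwc : IsComplex w := not_isReal_iff_isComplex.1 hw
      have hne : w.embedding ≠ ComplexEmbedding.conjugate w.embedding := by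
        intro h2
        exact (isComplex_iff.1 hwc) h2.symm
      have e : (Finset.univ.filter fun φ : K →+* ℂ => InfinitePlace.mk φ = w) =
          {w.embedding, ComplexEmbedding.conjugate w.embedding} := by
        ext φ
        rw [Finset.mem_filter, Finset.mem_insert, Finset.mem_singleton]
        constructor
        · rintro ⟨-, h2⟩
          rw [← mk_embedding w, mk_eq_iff] at h2
          rcases h2 with h2 | h2
          · exact Or.inl h2
          · right
            rw [← h2]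
            exact (star_star φ).symm
        · rintro (rfl | rfl)
          · exact ⟨Finset.mem_univ _, mk_embedding w⟩
          · exact ⟨Finset.mem_univ _, (mk_conjugate_eq _).trans (mk_embedding w)⟩
      refine ⟨Complex.normSq (w.embedding x), ?_, ?_⟩
      · rw [Complex.normSq_pos]
        exact (map_ne_zero _).2 hx
      · rw [e, Finset.prod_pair hne, Complex.normSq_eq_conj_mul_self, mul_comm]
        rfl
  choose r hr hr2 using h1
  have h2 : ((Algebra.norm ℚ x : ℚ) : ℂ) = ((∏ w, r w : ℝ) : ℂ) := by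
    have h3 := Algebra.norm_eq_prod_embeddings ℚ ℂ x
    rw [eq_ratCast] at h3
    rw [h3, ← Fintype.prod_equiv (RingHom.equivRatAlgHom K ℂ) (fun f => f x)
      (fun φ => φ x) fun _ => by simp [RingHom.equivRatAlgHom_apply],
      ← Finset.prod_fiberwise Finset.univ InfinitePlace.mk (fun φ : K →+* ℂ => φ x)]
    push_cast
    exact Finset.prod_congr rfl fun w _ => hr2 w
  have h3 : ((Algebra.norm ℚ x : ℚ) : ℝ) = ∏ w, r w := by exact_mod_cast h2
  have h4 : (0 : ℝ) < ((Algebra.norm ℚ x : ℚ) : ℝ) := by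
    rw [h3]
    exact Finset.prod_pos fun w _ => hr w
  exact_mod_cast h4

/-- norms of elements congruent to `1` -/
theorem norm_cong_one (q : ℕ) (a : 𝓞 K) (h : a - 1 ∈ Ideal.span {(q : 𝓞 K)}) :
    ((Algebra.norm ℤ a : ℤ) : ZMod q) = 1 := by
  obtain ⟨b, hb⟩ := Ideal.mem_span_singleton'.1 h
  have ha : a = 1 + (q : ℤ) • b := by
    rw [zsmul_eq_mul]
    push_cast
    linear_combination -hb
  have h1 := Algebra.norm_eq_matrix_det (RingOfIntegers.basis K) a
  rw [h1]
  have h2 : ((Algebra.leftMulMatrix (RingOfIntegers.basis K) a).det : ZMod q) =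
      Int.castRingHom (ZMod q) (Algebra.leftMulMatrix (RingOfIntegers.basis K) a).det := rfl
  rw [h2, RingHom.map_det, ha, map_add, map_one, map_smul]
  have h3 : (Int.castRingHom (ZMod q)).mapMatrix
      (1 + (q : ℤ) • Algebra.leftMulMatrix (RingOfIntegers.basis K) b) = 1 := by
    rw [map_add, map_one]
    have h4 : (Int.castRingHom (ZMod q)).mapMatrix
        ((q : ℤ) • Algebra.leftMulMatrix (RingOfIntegers.basis K) b) = 0 := by
      ext i j
      rw [RingHom.mapMatrix_apply, Matrix.map_apply, Matrix.smul_apply, smul_eq_mul, map_mul,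
        map_natCast, ZMod.natCast_self, zero_mul]
      rfl
    rw [h4, add_zero]
  rw [h3, Matrix.det_one]

theorem absNorm_cong_one (q : ℕ) (a : 𝓞 K) (ha : a ≠ 0)
    (h : a - 1 ∈ Ideal.span {(q : 𝓞 K)}) (hpos : ∀ v : RP K, 0 < re v (a : K)) :
    ((Ideal.absNorm (Ideal.span {a}) : ℕ) : ZMod q) = 1 := by
  have h1 : 0 < Algebra.norm ℚ (a : K) :=
    norm_pos_of_totpos _ (RingOfIntegers.coe_ne_zero_iff.2 ha) hpos
  rw [← Algebra.coe_norm_int] at h1
  have h2 : 0 < Algebra.norm ℤ a := by exact_mod_cast h1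
  rw [Ideal.absNorm_span_singleton, ← norm_cong_one q a h]
  have h3 : (((Algebra.norm ℤ a).natAbs : ℕ) : ℤ) = Algebra.norm ℤ a := Int.natAbs_of_nonneg h2.le
  calc (((Algebra.norm ℤ a).natAbs : ℕ) : ZMod q)
      = ((((Algebra.norm ℤ a).natAbs : ℕ) : ℤ) : ZMod q) := (Int.cast_natCast _).symm
    _ = _ := by rw [h3]

/-- an ideal prime to `q` has norm prime to `q` -/
theorem absNorm_coprime (q : ℕ) (I : Ideal (𝓞 K)) (hI : I ≠ ⊥)
    (h : I ⊔ Ideal.span {(q : 𝓞 K)} = ⊤) : (Ideal.absNorm I).Coprime q := by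
  rw [Nat.coprime_iff_gcd_eq_one, Nat.eq_one_iff_not_exists_prime_dvd]
  intro l hl hd
  have h1 : l ∣ Nat.card (𝓞 K ⧸ I) := by
    have := hd.trans (Nat.gcd_dvd_left _ _)
    rwa [Ideal.absNorm_apply, Submodule.cardQuot_apply] at this
  have h2 : l ∣ q := hd.trans (Nat.gcd_dvd_right _ _)
  have : Finite (𝓞 K ⧸ I) := Ideal.finiteQuotientOfFreeOfNeBot I hI
  have := Fact.mk hl
  obtain ⟨x, hx⟩ := exists_prime_addOrderOf_dvd_card' (G := 𝓞 K ⧸ I) l h1
  have hx0 : x ≠ 0 := by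
    rintro rfl
    rw [addOrderOf_zero] at hx
    exact hl.one_lt.ne hx
  have h3 : (q : 𝓞 K ⧸ I) * x = 0 := by
    obtain ⟨c, rfl⟩ := h2
    have h4 : l • x = 0 := by
      rw [← hx]
      exact addOrderOf_nsmul_eq_zero x
    rw [nsmul_eq_mul] at h4
    push_cast
    rw [mul_comm (l : 𝓞 K ⧸ I), mul_assoc, h4, mul_zero]
  have h5 : (1 : 𝓞 K) ∈ I ⊔ Ideal.span {(q : 𝓞 K)} := by
    rw [h]
    trivial
  obtain ⟨i, hi, j, hj, hij⟩ := Submodule.mem_sup.1 h5
  obtain ⟨c, rfl⟩ := Ideal.mem_span_singleton'.1 hj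
  apply hx0
  have h6 : Ideal.Quotient.mk I i = 0 := Ideal.Quotient.eq_zero_iff_mem.2 hi
  have h7 := congrArg (Ideal.Quotient.mk I) hij
  rw [map_add, h6, zero_add, map_mul, map_natCast, map_one] at h7
  calc x = 1 * x := (one_mul x).symm
    _ = Ideal.Quotient.mk I c * ((q : 𝓞 K ⧸ I) * x) := by rw [← h7]; ring
    _ = 0 := by rw [h3, mul_zero]

/-- an ideal which is not prime to `q` has norm not prime to `q` -/
theorem sup_eq_top_of_coprime (q : ℕ) (I : Ideal (𝓞 K)) (h : (Ideal.absNorm I).Coprime q) :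
    I ⊔ Ideal.span {(q : 𝓞 K)} = ⊤ := by
  rw [Ideal.eq_top_iff_one]
  obtain ⟨u, v, huv⟩ : ∃ u v : ℤ, u * (Ideal.absNorm I : ℤ) + v * (q : ℤ) = 1 := by
    have h1 := Nat.isCoprime_iff_coprime.2 h
    exact h1
  have h2 : (u : 𝓞 K) * (Ideal.absNorm I : 𝓞 K) + (v : 𝓞 K) * (q : 𝓞 K) = 1 := by
    exact_mod_cast congrArg (Int.cast (R := 𝓞 K)) huv
  rw [← h2]
  refine Submodule.add_mem_sup (Ideal.mul_mem_left _ _ (Ideal.absNorm_mem I)) ?_
  exact Ideal.mul_mem_left _ _ (Ideal.mem_span_singleton_self _)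

end norms

section tools

variable {R : Type} [CommRing R]

theorem sup_mul_top {I J L : Ideal R} (h1 : I ⊔ J = ⊤) (h2 : I ⊔ L = ⊤) : I ⊔ J * L = ⊤ := by
  rw [← Ideal.isCoprime_iff_sup_eq] at h1 h2 ⊢
  exact h1.mul_right h2

theorem sup_top_of_cong {I : Ideal R} {a b : R} (h : b - a ∈ I) (ha : Ideal.span {a} ⊔ I = ⊤) :
    Ideal.span {b} ⊔ I = ⊤ := by
  rw [Ideal.eq_top_iff_one] at ha ⊢
  obtain ⟨x, hx, y, hy, hxy⟩ := Submodule.mem_sup.1 ha
  obtain ⟨c, rfl⟩ := Ideal.mem_span_singleton'.1 hx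
  rw [← hxy, show c * a + y = c * b + (y - c * (b - a)) by ring]
  exact Submodule.add_mem_sup (Ideal.mul_mem_left _ _ (Ideal.mem_span_singleton_self _))
    (I.sub_mem hy (I.mul_mem_left _ h))

end tools

theorem pf_TWT (hSGN : T_SGN) (hPRM : T_PRM) : T_TWT := by
  classical
  intro K _ _ χ q _ θ
  have hq0 : (q : 𝓞 K) ≠ 0 := Nat.cast_ne_zero.2 (NeZero.ne q)
  have hQ : Ideal.span {(q : 𝓞 K)} ≠ ⊥ := by
    rwa [Ne, Ideal.span_singleton_eq_bot]
  set Q : Ideal (𝓞 K) := Ideal.span {(q : 𝓞 K)} with hQdef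
  have hm : χ.f * Q ≠ ⊥ := mul_ne_zero χ.f_ne hQ
  set ψ0 : Ideal (𝓞 K) → ℂ := fun I =>
    if I = ⊥ then 0 else χ.ψ I * θ ((Ideal.absNorm I : ℕ) : ZMod q) with hψ0
  have hψ : ∀ I, I ≠ ⊥ → ψ0 I = χ.ψ I * θ ((Ideal.absNorm I : ℕ) : ZMod q) := by
    intro I hI
    rw [hψ0]
    exact if_neg hI
  have hPC : PC (χ.f * Q) ψ0 := by
    refine ⟨hm, ?_, ?_, ?_, ?_, ?_, ?_⟩
    · rw [hψ ⊤ top_ne_bot, χ.map_one, Ideal.absNorm_top, Nat.cast_one, map_one, one_mul]
    · intro I J
      by_cases hI : I = ⊥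
      · rw [hψ0]
        simp only [hI, if_true, Ideal.bot_mul, zero_mul]
      by_cases hJ : J = ⊥
      · rw [hψ0]
        simp only [hJ, if_true, Ideal.mul_bot, mul_zero]
      rw [hψ I hI, hψ J hJ, hψ (I * J) (mul_ne_zero hI hJ), χ.map_mul, map_mul, Nat.cast_mul,
        map_mul]
      ring
    · rw [hψ0]
      exact if_pos rfl
    · intro I hI h
      have h1 : I ⊔ χ.f = ⊤ := top_le_iff.1 (h ▸ sup_le_sup_left Ideal.mul_le_left I)
      have h2 : I ⊔ Q = ⊤ := top_le_iff.1 (h ▸ sup_le_sup_left Ideal.mul_le_right I)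
      rw [hψ I hI, norm_mul, χ.norm_one I hI h1, one_mul]
      have h3 := absNorm_coprime q I hI h2
      have h4 := θ.unit_norm_eq_one (ZMod.unitOfCoprime _ h3)
      rwa [ZMod.coe_unitOfCoprime] at h4
    · intro I h
      by_cases hI : I = ⊥
      · rw [hψ0]
        exact if_pos hI
      rw [hψ I hI]
      by_cases h1 : I ⊔ χ.f = ⊤
      · have h2 : I ⊔ Q ≠ ⊤ := fun h2 => h (sup_mul_top h1 h2)
        have h3 : ¬ (Ideal.absNorm I).Coprime q := fun h3 => h2 (sup_eq_top_of_coprime q I h3)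
        rw [θ.map_nonunit (fun h4 => h3 ((ZMod.isUnit_iff_coprime _ _).1 h4)), mul_zero]
      · rw [χ.eq_zero I h1, zero_mul]
    · intro a ha h hpos
      have hspan : Ideal.span {a} ≠ ⊥ := by rwa [Ne, Ideal.span_singleton_eq_bot]
      rw [hψ _ hspan, χ.princ a ha (Ideal.mul_le_left h),
        absNorm_cong_one q a ha (Ideal.mul_le_right h) hpos, map_one, mul_one, sg_eq]
      exact Finset.prod_eq_one fun v _ => if_pos (hpos v)
  obtain ⟨χ', hle, hval, -⟩ := hPRM K (χ.f * Q) ψ0 hPC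
  refine ⟨χ', fun P hP hPne hPQ => ?_⟩
  have hmax : P.IsMaximal := hP.isMaximal hPne
  by_cases hPf : P ⊔ χ.f = ⊤
  · rw [hval P hPne (sup_mul_top hPf hPQ), hψ P hPne]
  · rw [χ.eq_zero P hPf, zero_mul]
    refine χ'.eq_zero P fun hPf' => ?_
    have hfP : χ.f ≤ P := by
      have h1 : P ⊔ χ.f = P := (hmax.eq_of_le hPf le_sup_left).symm
      exact h1 ▸ le_sup_right
    obtain ⟨a0, ha0, ha0f, ha0P, ha0ne⟩ := χ.prim P hP hfP
    have hPirr : Irreducible P := (Ideal.prime_of_isPrime hPne hP).irreducible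
    obtain ⟨r, g, hPg, hfg⟩ := WfDvdMonoid.max_power_factor χ.f_ne hPirr
    have hPg' : P ⊔ g = ⊤ := by
      by_contra hcon
      have h1 : P ⊔ g = P := (hmax.eq_of_le hcon le_sup_left).symm
      exact hPg (Ideal.dvd_iff_le.2 (h1 ▸ le_sup_right))
    have hPr : ∀ J : Ideal (𝓞 K), P ⊔ J = ⊤ → P ^ r ⊔ J = ⊤ := by
      intro J hJ
      rw [← Ideal.isCoprime_iff_sup_eq] at hJ ⊢
      exact hJ.pow_left
    have ha0g : a0 - 1 ∈ g := by
      have h1 : (1 : 𝓞 K) ∈ P ⊔ g := by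
        rw [hPg']
        trivial
      obtain ⟨x, hx, y, hy, hxy⟩ := Submodule.mem_sup.1 h1
      have h2 : (a0 - 1) * x ∈ g := by
        have h3 := ha0P x hx
        rw [hfg] at h3
        exact Ideal.mul_le_right h3
      rw [show a0 - 1 = (a0 - 1) * x + (a0 - 1) * y by linear_combination (1 - a0) * hxy]
      exact g.add_mem h2 (g.mul_mem_left _ hy)
    have hgQ : g * Q ≤ χ'.f := by
      intro z hz
      have h1 : (1 : 𝓞 K) ∈ P ^ r ⊔ χ'.f := by
        rw [hPr _ hPf']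
        trivial
      obtain ⟨x, hx, y, hy, hxy⟩ := Submodule.mem_sup.1 h1
      rw [← mul_one z, ← hxy, mul_add]
      refine χ'.f.add_mem (hle ?_) (χ'.f.mul_mem_left _ hy)
      rw [hfg, mul_assoc, mul_comm z x]
      exact Ideal.mul_mem_mul hx hz
    have hPrgQ : P ^ r ⊔ g * Q = ⊤ := hPr _ (sup_mul_top hPg' hPQ)
    -- the element `x`
    obtain ⟨x, hx1, hx2⟩ : ∃ x : 𝓞 K, x - a0 ∈ P ^ r ∧ x - 1 ∈ g * Q := by
      have h1 : (1 : 𝓞 K) ∈ P ^ r ⊔ g * Q := by
        rw [hPrgQ]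
        trivial
      obtain ⟨y, hy, z, hz, hyz⟩ := Submodule.mem_sup.1 h1
      refine ⟨y + z * a0, ?_, ?_⟩
      · rw [show y + z * a0 - a0 = (1 - a0) * y by linear_combination a0 * hyz]
        exact Ideal.mul_mem_left _ _ hy
      · rw [show y + z * a0 - 1 = (a0 - 1) * z by linear_combination hyz]
        exact Ideal.mul_mem_left _ _ hz
    obtain ⟨b, hbx, hb0, -, hbpos⟩ := hSGN K (χ.f * Q) x ∅ hm
    have hbpos' : ∀ v : RP K, 0 < re v (b : K) := fun v => hbpos v (Set.notMem_empty v)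
    have hmPr : χ.f * Q ≤ P ^ r := Ideal.mul_le_left.trans (hfg ▸ Ideal.mul_le_left)
    have hmgQ : χ.f * Q ≤ g * Q := by
      rw [hfg, mul_assoc]
      exact Ideal.mul_le_right
    have hb1 : b - a0 ∈ P ^ r := by
      rw [show b - a0 = (b - x) + (x - a0) by ring]
      exact (P ^ r).add_mem (hmPr hbx) hx1
    have hb2 : b - 1 ∈ g * Q := by
      rw [show b - 1 = (b - x) + (x - 1) by ring]
      exact (g * Q).add_mem (hmgQ hbx) hx2
    have hb3 : b - a0 ∈ χ.f := by
      have h1 : b - a0 ∈ g := by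
        rw [show b - a0 = (b - 1) - (a0 - 1) by ring]
        exact g.sub_mem (Ideal.mul_le_left hb2) ha0g
      rw [hfg, Ideal.mul_eq_inf_of_coprime (hPr _ hPg')]
      exact ⟨hb1, h1⟩
    have hbspan : Ideal.span {b} ≠ ⊥ := by rwa [Ne, Ideal.span_singleton_eq_bot]
    have hbf : Ideal.span {b} ⊔ χ.f = ⊤ := sup_top_of_cong hb3 ha0f
    have hbQ : Ideal.span {b} ⊔ Q = ⊤ := by
      refine sup_top_of_cong (a := 1) (Ideal.mul_le_right hb2) ?_
      rw [Ideal.span_singleton_one, top_sup_eq]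
    have hsgb : ∀ S : Finset (RP K), sg K S (b : K) = 1 := by
      intro S
      rw [sg_eq]
      exact Finset.prod_eq_one fun v _ => if_pos (hbpos' v)
    have h1 : χ.ψ (Ideal.span {b}) = 1 := by
      have h2 := χ'.princ b hb0 (hgQ hb2)
      rw [hval _ hbspan (sup_mul_top hbf hbQ), hψ _ hbspan, hsgb,
        absNorm_cong_one q b hb0 (Ideal.mul_le_right hb2) hbpos', map_one, mul_one] at h2
      exact h2
    -- an inverse of `a0`
    have h2 : (1 : 𝓞 K) ∈ Ideal.span {a0} ⊔ χ.f := by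
      rw [ha0f]
      trivial
    obtain ⟨y, hy, z, hz, hyz⟩ := Submodule.mem_sup.1 h2
    obtain ⟨c, rfl⟩ := Ideal.mem_span_singleton'.1 hy
    have hc0 : c ≠ 0 := by
      rintro rfl
      rw [zero_mul, zero_add] at hyz
      rw [hyz] at hz
      exact hP.ne_top ((Ideal.eq_top_iff_one P).2 (hfP hz))
    have hca : c * a0 - 1 ∈ χ.f := by
      rw [show c * a0 - 1 = -z by linear_combination hyz]
      exact χ.f.neg_mem hz
    have hcb : c * b - 1 ∈ χ.f := by
      rw [show c * b - 1 = c * (b - a0) + (c * a0 - 1) by ring]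
      exact χ.f.add_mem (χ.f.mul_mem_left _ hb3) hca
    have h3 := χ.princ _ (mul_ne_zero hc0 ha0) hca
    have h4 := χ.princ _ (mul_ne_zero hc0 hb0) hcb
    have hcK : (c : K) ≠ 0 := RingOfIntegers.coe_ne_zero_iff.2 hc0
    have haK : (a0 : K) ≠ 0 := RingOfIntegers.coe_ne_zero_iff.2 ha0
    have hbK : (b : K) ≠ 0 := RingOfIntegers.coe_ne_zero_iff.2 hb0
    have e1 : ((c * a0 : 𝓞 K) : K) = (c : K) * (a0 : K) := rfl
    have e2 : ((c * b : 𝓞 K) : K) = (c : K) * (b : K) := rfl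
    rw [← Ideal.span_singleton_mul_span_singleton, χ.map_mul, e1, sg_mul _ hcK haK] at h3
    rw [← Ideal.span_singleton_mul_span_singleton, χ.map_mul, e2, sg_mul _ hcK hbK, h1,
      hsgb, mul_one, mul_one] at h4
    rw [h4] at h3
    exact ha0ne (mul_left_cancel₀ (sg_ne _ _) h3)

end Pool.Agent.H92.RC
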