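import Pool.Agent.H28.RC.Basic

/-!
# Periodicity of the coefficients
-/

set_option autoImplicit false

open NumberField NumberField.InfinitePlace NumberField.Units
  NumberField.Units.dirichletUnitTheorem MeasureTheory Set Filter Complex
open scoped nonZeroDivisors ENNReal

namespace Pool.Agent.H92.RC

open Pool.Agent.H28.RC Pool.Agent.H25.HK Pool.Agent.H25

section

variable {K : Type} [Field K] [NumberField K]

lemma coe_sup_mul (I J : Ideal (𝓞 K)) (M : FI K) :
    ((I ⊔ J : Ideal (𝓞 K)) : FI K) * M = (I : FI K) * M ⊔ (J : FI K) * M := by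
  rw [FractionalIdeal.coeIdeal_sup, FractionalIdeal.sup_eq_add, add_mul]

lemma span_sup_le {N : FI K} {x x' : K} (h : x' - x ∈ N) :
    FractionalIdeal.spanSingleton (𝓞 K)⁰ x ⊔ N ≤
      FractionalIdeal.spanSingleton (𝓞 K)⁰ x' ⊔ N := by
  refine sup_le ?_ le_sup_right
  rw [FractionalIdeal.spanSingleton_le_iff_mem]
  have h1 : x' ∈ FractionalIdeal.spanSingleton (𝓞 K)⁰ x' ⊔ N :=
    (le_sup_left : FractionalIdeal.spanSingleton (𝓞 K)⁰ x' ≤
      FractionalIdeal.spanSingleton (𝓞 K)⁰ x' ⊔ N)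
      (FractionalIdeal.mem_spanSingleton_self _ _)
  have h2 : x' - x ∈ FractionalIdeal.spanSingleton (𝓞 K)⁰ x' ⊔ N :=
    (le_sup_right : N ≤ FractionalIdeal.spanSingleton (𝓞 K)⁰ x' ⊔ N) h
  have h3 := Submodule.sub_mem
    (FractionalIdeal.spanSingleton (𝓞 K)⁰ x' ⊔ N : FI K).coeToSubmodule h1 h2
  rw [sub_sub_cancel] at h3
  exact h3

omit [NumberField K] in
lemma mem_of_sub {N : FI K} {x x' : K} (h : x' - x ∈ N) : x - x' ∈ N := by
  have h1 := Submodule.neg_mem N.coeToSubmodule h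
  rw [neg_sub] at h1
  exact h1

/-- the main step -/
lemma step1 (hID : T_ID) (χ : RCC K) (M : FI K) (hM : M ≠ 0) {x x' : K} (hx : x ∈ M)
    (hx' : x' ∈ M) (h0 : x ≠ 0) (h0' : x' ≠ 0) (hd : x' - x ∈ (χ.f : FI K) * M) :
    sg K χ.S x' * χ.ψ (idl K M x') = sg K χ.S x * χ.ψ (idl K M x) := by
  obtain ⟨i1, -, i3, i4, -, -, -⟩ := hID K M hM
  have hI := i1 x hx
  have hI' := i1 x' hx'
  have hsup : idl K M x ⊔ χ.f = idl K M x' ⊔ χ.f := by
    apply FractionalIdeal.coeIdeal_injective (K := K)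
    apply mul_right_cancel₀ hM
    rw [coe_sup_mul, coe_sup_mul, hI, hI']
    exact le_antisymm (span_sup_le hd) (span_sup_le (mem_of_sub hd))
  by_cases hc : idl K M x ⊔ χ.f = ⊤
  · -- the coprime case
    have hbot : idl K M x ≠ ⊥ := fun h => h0 ((i4 x hx).1 h)
    obtain ⟨b, hb, hb0, hb1⟩ : ∃ b ∈ idl K M x, b ≠ 0 ∧ b - 1 ∈ χ.f := by
      have h1 : (1 : 𝓞 K) ∈ idl K M x ⊔ χ.f := by rw [hc]; exact Submodule.mem_top
      obtain ⟨b, hb, c, hcf, hbc⟩ := Submodule.mem_sup.1 h1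
      by_cases hb0 : b = 0
      · have h2 : χ.f = ⊤ := by
          rw [Ideal.eq_top_iff_one, ← hbc, hb0, zero_add]
          exact hcf
        obtain ⟨b', hb', hb0'⟩ := Submodule.exists_mem_ne_zero_of_ne_bot hbot
        exact ⟨b', hb', hb0', by rw [h2]; exact Submodule.mem_top⟩
      · refine ⟨b, hb, hb0, ?_⟩
        have h3 : b - 1 = -c := by rw [← hbc]; ring
        rw [h3]
        exact neg_mem hcf
    have h4 : (b : K) * x' ∈ FractionalIdeal.spanSingleton (𝓞 K)⁰ x := by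
      rw [← hI]
      exact FractionalIdeal.mul_mem_mul (FractionalIdeal.mem_coeIdeal_of_mem _ hb) hx'
    obtain ⟨a, ha⟩ := (FractionalIdeal.mem_spanSingleton (𝓞 K)⁰).1 h4
    rw [Algebra.smul_def] at ha
    change (a : K) * x = (b : K) * x' at ha
    have hbK : (b : K) ≠ 0 := by
      intro h
      exact hb0 (FaithfulSMul.algebraMap_injective (𝓞 K) K (by rw [map_zero]; exact h))
    have haK : (a : K) ≠ 0 := by
      intro h
      rw [h, zero_mul] at ha
      exact mul_ne_zero hbK h0' ha.symm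
    have ha0 : a ≠ 0 := by
      rintro rfl
      exact haK (map_zero _)
    have hab : a - b ∈ χ.f := by
      have h5 : (b : K) * (x' - x) ∈ (idl K M x : FI K) * ((χ.f : FI K) * M) :=
        FractionalIdeal.mul_mem_mul (FractionalIdeal.mem_coeIdeal_of_mem _ hb) hd
      rw [mul_left_comm, hI, mul_comm] at h5
      obtain ⟨y, hy, hyx⟩ := FractionalIdeal.mem_singleton_mul.1 h5
      obtain ⟨c, hcf, hcy⟩ := (FractionalIdeal.mem_coeIdeal (𝓞 K)⁰).1 hy
      have h6 : ((a - b : 𝓞 K) : K) * x = (c : K) * x := by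
        have h7 : ((a - b : 𝓞 K) : K) = (a : K) - (b : K) := map_sub _ _ _
        rw [h7, sub_mul, ha, ← mul_sub, hyx, ← hcy]
        exact mul_comm _ _
      have h8 : a - b = c :=
        FaithfulSMul.algebraMap_injective (𝓞 K) K (mul_right_cancel₀ h0 h6)
      rw [h8]
      exact hcf
    have ha1 : a - 1 ∈ χ.f := by
      have h9 := χ.f.add_mem hab hb1
      rwa [sub_add_sub_cancel] at h9
    have hpa := χ.princ a ha0 ha1
    have hpb := χ.princ b hb0 hb1
    have h10 : Ideal.span {a} * idl K M x = Ideal.span {b} * idl K M x' := by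
      rw [← i3 a x hx, ← i3 b x' hx', ha]
    have h11 := congrArg χ.ψ h10
    rw [χ.map_mul, χ.map_mul, hpa, hpb] at h11
    have h12 : sg K χ.S (a : K) * sg K χ.S x = sg K χ.S (b : K) * sg K χ.S x' := by
      rw [← sg_mul _ haK h0, ← sg_mul _ hbK h0', ha]
    have h13 := sg_sq χ.S (a : K)
    have h14 := sg_sq χ.S (b : K)
    calc sg K χ.S x' * χ.ψ (idl K M x')
        = (sg K χ.S (b : K) * sg K χ.S x') * (sg K χ.S (b : K) * χ.ψ (idl K M x')) := by
          linear_combination (-(sg K χ.S x' * χ.ψ (idl K M x'))) * h14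
      _ = (sg K χ.S (a : K) * sg K χ.S x) * (sg K χ.S (a : K) * χ.ψ (idl K M x)) := by
          rw [← h12, ← h11]
      _ = _ := by
          linear_combination (sg K χ.S x * χ.ψ (idl K M x)) * h13
  · rw [χ.eq_zero _ hc, χ.eq_zero _ (by rw [← hsup]; exact hc), mul_zero, mul_zero]

end

/-- (CP) the coefficients are periodic. -/
theorem pf_CP : T_ID → T_CM → T_CP := by
  intro hID hCM K _ _ χ M hM x hx l hl
  obtain ⟨-, -, -, -, -, -, -, hz0, hz⟩ := hCM K χ M hM
  have hle : (χ.f : FI K) * M ≤ M := by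
    have h3 : ((χ.f : Ideal (𝓞 K)) : FI K) * M ≤ 1 * M :=
      mul_le_mul_left FractionalIdeal.coeIdeal_le_one M
    rwa [one_mul] at h3
  have key : ∀ y ∈ M, ∃ y' ∈ M, y' ≠ 0 ∧ y' - y ∈ (χ.f : FI K) * M ∧
      cf χ M y = sg K χ.S y' * χ.ψ (idl K M y') := by
    intro y hy
    by_cases h : y = 0
    · refine ⟨z0 χ M, hle hz, hz0, ?_, ?_⟩
      · rw [h, sub_zero]
        exact hz
      · unfold cf
        rw [if_pos h]
    · refine ⟨y, hy, h, ?_, ?_⟩
      · rw [sub_self]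
        exact FractionalIdeal.zero_mem _
      · unfold cf
        rw [if_neg h]
  obtain ⟨x1, hx1, hx10, hx1d, hx1c⟩ := key x hx
  have hxl : x + l ∈ M := Submodule.add_mem M.coeToSubmodule hx (hle hl)
  obtain ⟨x2, hx2, hx20, hx2d, hx2c⟩ := key (x + l) hxl
  rw [hx1c, hx2c]
  refine step1 hID χ M hM hx1 hx2 hx10 hx20 ?_
  have h1 := Submodule.sub_mem ((χ.f : FI K) * M).coeToSubmodule
    (Submodule.add_mem ((χ.f : FI K) * M).coeToSubmodule hx2d hl) hx1d
  have h2 : x2 - (x + l) + l - (x1 - x) = x2 - x1 := by ring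
  rw [h2] at h1
  exact h1

end Pool.Agent.H92.RC
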