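import Pool.Agent.H70.RC.Targets

/-!
# The relativizing consequences of NP ⊆ BQP: row RZG
-/

set_option autoImplicit false

namespace Pool.Agent.H92.RC

open Finset Filter
open Pool.Agent.H6.NB (Verifier QAlg inst)
open Pool.Agent.H70.RC

/-- a string of length at most `N`, with end marker, as a vector -/
def encS (N : ℕ) (s : List Bool) : Fin (N + 1) → Bool := fun i => (s ++ [true]).getD i false

lemma encS_len {N : ℕ} {s s' : List Bool} (hs' : s'.length ≤ N)
    (h : encS N s = encS N s') : ¬ s.length < s'.length := by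
  intro hlt
  have h1 := congrFun h ⟨s'.length, by omega⟩
  unfold encS at h1
  simp only at h1
  rw [List.getD_eq_default _ _ (by simp; omega)] at h1
  simp at h1

lemma encS_inj {N : ℕ} {s s' : List Bool} (hs : s.length ≤ N) (hs' : s'.length ≤ N)
    (h : encS N s = encS N s') : s = s' := by
  have h1 := encS_len hs' h
  have h2 := encS_len hs h.symm
  have h3 : s.length = s'.length := by omega
  apply List.ext_getElem h3
  intro i hi hi'
  have h4 := congrFun h ⟨i, by omega⟩
  unfold encS at h4
  simp only at h4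
  rw [List.getD_eq_getElem _ _ (by simp; omega), List.getD_eq_getElem _ _ (by simp; omega)] at h4
  rw [List.getElem_append_left hi, List.getElem_append_left hi'] at h4
  exact h4

lemma card_Li (n N : ℕ) : Fintype.card (Li n N) ≤ 2 ^ (N + 1) := by
  have h : Function.Injective (fun s : Li n N => encS N s.1) := by
    intro s s' hss
    exact Subtype.ext (encS_inj s.2.2 s'.2.2 hss)
  have h1 := Fintype.card_le_of_injective _ h
  rwa [Fintype.card_fun, Fintype.card_bool, Fintype.card_fin] at h1

theorem pf_RZG (hRAZ : T_RAZ) (hARY : T_ARY) (hLIT : T_LIT) : T_RZG := by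
  classical
  intro V F t hF n N hnN h4 D X P
  have a0 : Ad n N := fun _ _ => false
  have hbv : ∀ (a : Ad n N) (h : Ar n N), lbv V D X (a, h, P) = lbv V D X (a0, h, P) := by
    intro a h
    funext w
    exact (hLIT V n N D X a0 h P w).1 a
  -- bad pairs for one instance
  have hone : ∀ s : Li n N,
      (∑ p : Ad n N × Ar n N, if Bad (lst p.1) (lbv V D X (a0, p.2, P)) (F s.1) N then (1 : ℝ)
        else 0) ≤ 3 * (4 * (N * N) / 2 ^ n) ^ N * nAA n N := by
    intro s
    have h1 := hRAZ (Li n N) (List Bool) (fun s => Fin s.1.length → Bool)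
      (fun x => arrp x.1.1 (List.ofFn x.2)) lst (fun h => lbv V D X (a0, h, P)) (F s.1) N N (2 ^ n)
      (hARY V n N D X a0 P) (fun T hT => ⟨?_, hF.nd s.1 T hT⟩) (fun s' => ?_) h4
      (Nat.one_le_two_pow)
    · have h2 : (Nat.card {p : Ad n N × Ar n N //
          Bad (lst p.1) (lbv V D X (a0, p.2, P)) (F s.1) N} : ℝ) =
          ∑ p : Ad n N × Ar n N, if Bad (lst p.1) (lbv V D X (a0, p.2, P)) (F s.1) N then (1 : ℝ)
            else 0 := by
        rw [Finset.sum_boole, Nat.card_eq_fintype_card, Fintype.card_subtype]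
      rw [← h2]
      have h3 : (0 : ℝ) < ((2 : ℝ) ^ n) ^ N := by positivity
      have h5 : 3 * (4 * ((N : ℝ) * N) / 2 ^ n) ^ N * nAA n N =
          3 * (4 * ((N : ℝ) * N)) ^ N * nAA n N / ((2 : ℝ) ^ n) ^ N := by
        rw [div_pow]
        ring
      rw [h5, le_div_iff₀ h3]
      have h6 : nAA n N = (Nat.card (Ad n N) : ℝ) * Nat.card (Ar n N) := by
        unfold nAA
        rw [Nat.card_eq_fintype_card, Nat.card_eq_fintype_card]
      rw [h6]
      push_cast at h1
      exact h1
    · have h2 := hF.tl s.1 T hT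
      have h3 := hF.sq s.1
      have h5 := s.2.2
      have h6 : t s.1 ≤ s.1.length := by nlinarith
      omega
    · rw [Fintype.card_fun, Fintype.card_bool, Fintype.card_fin]
      exact Nat.pow_le_pow_right (by norm_num) s'.2.1
  -- union bound
  have hpt : ∀ p : Ad n N × Ar n N, (1 : ℝ) - ∑ s : Li n N,
      (if Bad (lst p.1) (lbv V D X (a0, p.2, P)) (F s.1) N then (1 : ℝ) else 0) ≤
      if GoodS V F D X (p.1, p.2, P) then (1 : ℝ) else 0 := by
    intro p
    have h0 : ∀ s ∈ (univ : Finset (Li n N)), (0 : ℝ) ≤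
        (if Bad (lst p.1) (lbv V D X (a0, p.2, P)) (F s.1) N then (1 : ℝ) else 0) := by
      intro s _
      split_ifs <;> norm_num
    by_cases hg : GoodS V F D X (p.1, p.2, P)
    · rw [if_pos hg]
      have := Finset.sum_nonneg h0
      linarith
    · rw [if_neg hg]
      unfold GoodS at hg
      push Not at hg
      obtain ⟨s, hs⟩ := hg
      have h1 := Finset.single_le_sum h0 (mem_univ s)
      rw [if_pos] at h1
      · linarith
      · rw [← hbv p.1 p.2]
        exact hs
  have hsum := Finset.sum_le_sum (fun p (_ : p ∈ (univ : Finset (Ad n N × Ar n N))) => hpt p)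
  rw [Finset.sum_sub_distrib, Finset.sum_comm] at hsum
  have hcard : ∑ _p : Ad n N × Ar n N, (1 : ℝ) = nAA n N := by
    rw [Finset.sum_const, Finset.card_univ, Fintype.card_prod, nsmul_eq_mul, mul_one]
    unfold nAA
    push_cast
    rfl
  rw [hcard] at hsum
  have hS := Finset.sum_le_sum (fun s (_ : s ∈ (univ : Finset (Li n N))) => hone s)
  rw [Finset.sum_const, nsmul_eq_mul, Finset.card_univ] at hS
  have hpos : 0 ≤ 3 * (4 * ((N : ℝ) * N) / 2 ^ n) ^ N * nAA n N := by
    unfold nAA
    positivity
  have hL : (Fintype.card (Li n N) : ℝ) ≤ 2 ^ (N + 1) := by exact_mod_cast card_Li n N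
  have hM := mul_le_mul_of_nonneg_right hL hpos
  have hgoal : ∑ p : Ad n N × Ar n N, (if GoodS V F D X (p.1, p.2, P) then (1 : ℝ) else 0) =
      ∑ a : Ad n N, ∑ h : Ar n N, if GoodS V F D X (a, h, P) then (1 : ℝ) else 0 := by
    rw [Fintype.sum_prod_type]
  rw [← hgoal]
  nlinarith

end Pool.Agent.H92.RC
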