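import Pool.Agent.H70.RC.Targets

/-!
# The relativizing consequences of NP ⊆ BQP: row FIN
-/

set_option autoImplicit false

namespace Pool.Agent.H92.RC

open Finset Filter
open Pool.Agent.H6.NB (Verifier QAlg inst)
open Pool.Agent.H70.RC

lemma Agr.mono' {Z Z' : ℕ → Prop} (h : ∀ i, Z' i → Z i) {D D' : Dat} (hA : Agr Z D D') :
    Agr Z' D D' :=
  ⟨fun n hn => hA.1 n (h _ hn), fun s hs => hA.2.1 s (h _ hs), fun s hs => hA.2.2.1 s (h _ hs),
    fun p hp => hA.2.2.2 p (h _ hp)⟩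

lemma Agr.trans' {Z : ℕ → Prop} {D D' D'' : Dat} (hA : Agr Z D D') (hB : Agr Z D' D'') :
    Agr Z D D'' :=
  ⟨fun n hn => (hA.1 n hn).trans (hB.1 n hn), fun s hs => (hA.2.1 s hs).trans (hB.2.1 s hs),
    fun s hs => (hA.2.2.1 s hs).trans (hB.2.2.1 s hs),
    fun p hp => (hA.2.2.2 p hp).trans (hB.2.2.2 p hp)⟩

lemma Agr.symm' {Z : ℕ → Prop} {D D' : Dat} (hA : Agr Z D D') : Agr Z D' D :=
  ⟨fun n hn => (hA.1 n hn).symm, fun s hs => (hA.2.1 s hs).symm, fun s hs => (hA.2.2.1 s hs).symm,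
    fun p hp => (hA.2.2.2 p hp).symm⟩

lemma Agr.refl' (Z : ℕ → Prop) (D : Dat) : Agr Z D D :=
  ⟨fun _ _ => rfl, fun _ _ => rfl, fun _ _ => rfl, fun _ _ => rfl⟩

/-- The sections of the oracle. -/
lemma sec_orc (hSTR : T_STR) (hORC : T_ORC) (hBAS : T_BAS) (V : ℕ → Verifier) (D : Dat) (n : ℕ) :
    sec (orc V D) n = D.X n := by
  funext w
  unfold sec
  have h1 : ∀ s, (false :: List.ofFn w) ≠ star D s := by
    intro s hs
    have h2 : str (Sum.inl ⟨n, w⟩ : Ps) = str (Sum.inr (Sum.inl ⟨s, D.a s⟩) : Ps) := hs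
    have h3 := hSTR.1 h2
    cases h3
  rw [(hORC V D).1 _ h1]
  exact hBAS.1 D (Sum.inl ⟨n, w⟩)

theorem pf_FIN (hSTG : T_STG) (hORC : T_ORC) (hBAS : T_BAS) (hCON : T_CON) (hEXO : T_EXO)
    (hINS : Pool.Agent.H70.RC.T_INS) (hLOC : T_LOC) (hSTR : T_STR) :
    Pool.Agent.H70.RC.T_FIN := by
  classical
  intro f hf hard V Q hQ
  -- the initial data
  choose X0 hX0 using hf
  choose C0 hC0 using hCON
  obtain ⟨D0, hD0⟩ : ∃ D : Dat, D.Ok f :=
    ⟨⟨X0, fun _ _ => false, fun _ _ => false, fun p => C0 p false⟩, hX0, fun p => hC0 p false⟩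
  choose cc hcc using hQ
  -- the steps
  have hstep : ∀ (e : ℕ) (S : {D : Dat // D.Ok f} × ℕ), ∃ S' : {D : Dat // D.Ok f} × ℕ, ∃ n : ℕ,
      S.2 ≤ n ∧ e ≤ n ∧ n < S'.2 ∧ (Q e.unpair.1 n).Short (S'.2 - 1) ∧
      Agr (fun i => i < n) S.1.1 S'.1.1 ∧
      ¬ Right (Q e.unpair.1 n) (orc V S'.1.1) (f n (S'.1.1.X n)) := by
    intro e S
    obtain ⟨n, N, h1, h2, h3, D', h4, h5, h6⟩ :=
      hSTG V f (Q e.unpair.1) (cc e.unpair.1) (hcc _) hard S.1.1 S.1.2 (max S.2 e)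
    exact ⟨(⟨D', h4⟩, N + 1), n, (le_max_left _ _).trans h1, (le_max_right _ _).trans h1,
      Nat.lt_succ_of_le h2, h3, Agr.mono' (fun i hi => Or.inl hi) h5, h6⟩
  choose nx nn g1 g2 g3 g4 g5 g6 using hstep
  obtain ⟨S, hS0, hS⟩ : ∃ S : ℕ → {D : Dat // D.Ok f} × ℕ, S 0 = (⟨D0, hD0⟩, 0) ∧
      ∀ e, S (e + 1) = nx e (S e) :=
    ⟨fun e => Nat.rec (⟨D0, hD0⟩, 0) (fun e S => nx e S) e, rfl, fun _ => rfl⟩
  have hb1 : ∀ e, (S e).2 ≤ nn e (S e) := fun e => g1 e (S e)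
  have hb2 : ∀ e, nn e (S e) < (S (e + 1)).2 := fun e => by
    rw [hS e]
    exact g3 e (S e)
  have hbe : ∀ e, e ≤ (S e).2 := by
    intro e
    cases e with
    | zero => exact Nat.zero_le _
    | succ e =>
      have := g2 e (S e)
      have := hb2 e
      omega
  have hstab : ∀ e e', e ≤ e' → Agr (fun i => i < (S e).2) (S e).1.1 (S e').1.1 ∧
      (S e).2 ≤ (S e').2 := by
    intro e e' h
    induction e', h using Nat.le_induction with
    | base => exact ⟨Agr.refl' _ _, le_rfl⟩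
    | succ e' he ih =>
      have h1 : Agr (fun i => i < nn e' (S e')) (S e').1.1 (S (e' + 1)).1.1 := by
        rw [hS e']
        exact g5 e' (S e')
      refine ⟨Agr.trans' ih.1 (Agr.mono' (fun i hi => ?_) h1), ?_⟩
      · have := hb1 e'
        omega
      · have := hb1 e'
        have := hb2 e'
        omega
  -- the limit
  obtain ⟨D, hD⟩ : ∃ D : Dat, D = ⟨fun n => (S (n + 1)).1.1.X n, fun s => (S (s.length + 1)).1.1.a s,
    fun s => (S (s.length + 1)).1.1.h s, fun p => (S (p.1.length + 1)).1.1.c p⟩ := ⟨_, rfl⟩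
  have hlev : ∀ e i, i < (S e).2 → Agr (fun j => j = i) (S (i + 1)).1.1 (S e).1.1 := by
    intro e i hi
    rcases le_total (i + 1) e with h | h
    · refine Agr.mono' (fun j hj => ?_) (hstab (i + 1) e h).1
      have := hbe (i + 1)
      omega
    · refine Agr.symm' (Agr.mono' (fun j hj => ?_) (hstab e (i + 1) h).1)
      rw [hj]
      exact hi
  have hlim : ∀ e, Agr (fun i => i < (S e).2) D (S e).1.1 := by
    intro e
    rw [hD]
    exact ⟨fun n hn => (hlev e n hn).1 n rfl, fun s hs => (hlev e _ hs).2.1 s rfl,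
      fun s hs => (hlev e _ hs).2.2.1 s rfl, fun p hp => (hlev e _ hp).2.2.2 p rfl⟩
  have hDok : D.Ok f := by
    rw [hD]
    exact ⟨fun n => (S (n + 1)).1.2.1 n, fun p => (S (p.1.length + 1)).1.2.2 p⟩
  have hsec : ∀ n, sec (orc V D) n = D.X n := sec_orc hSTR hORC hBAS V D
  refine ⟨orc V D, ?_, ?_, ?_⟩
  · intro n
    rw [hsec n]
    exact hDok.1 n
  · intro i x
    obtain ⟨h1, h2⟩ := hEXO V f D hDok (inst (V i).c i x)
    have h3 := hINS V (orc V D) i x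
    exact ⟨fun h => h1 (h3.2 h), fun h => h2 (fun h' => h (h3.1 h'))⟩
  · intro j
    rw [frequently_atTop]
    intro n0
    obtain ⟨e, he⟩ : ∃ e, e = Nat.pair j n0 := ⟨_, rfl⟩
    have hej : e.unpair.1 = j := by rw [he, Nat.unpair_pair]
    have hen : n0 ≤ e := by
      rw [he]
      exact Nat.right_le_pair _ _
    refine ⟨nn e (S e), hen.trans (g2 e (S e)), ?_⟩
    have h6 := g6 e (S e)
    rw [hej, ← hS e] at h6
    have h4 := g4 e (S e)
    rw [hej, ← hS e] at h4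
    have hlt := hb2 e
    have hX : D.X (nn e (S e)) = (S (e + 1)).1.1.X (nn e (S e)) := (hlim (e + 1)).1 _ hlt
    have horc : ∀ w : List Bool, w.length ≤ (S (e + 1)).2 - 1 →
        orc V D w = orc V (S (e + 1)).1.1 w := by
      intro w hw
      exact ((hORC V D).2.2 (S (e + 1)).1.1 (S (e + 1)).2 (hlim (e + 1))).2 w (by omega)
    have hprob := (hLOC (Q j (nn e (S e)))).2 _ (orc V D) (orc V (S (e + 1)).1.1) h4 horc
    rw [hsec, hX]
    intro hR
    apply h6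
    unfold Right at hR ⊢
    rw [hprob] at hR
    exact hR

end Pool.Agent.H92.RC
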