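import Pool.Agent.H70.RC.Targets

/-!
# The relativizing consequences of NP ⊆ BQP: row LST
-/

set_option autoImplicit false

namespace Pool.Agent.H92.RC

open Finset Filter Pool.Agent.H6.NB Pool.Agent.H70.OQ Pool.Agent.H70.EH Pool.Agent.H70.EI
open Pool.Agent.H78.XQ Pool.Agent.H70.RC

theorem pf_LST (hMUG : T_MUG) (hMUM : T_MUM) (hNUM : Pool.Agent.H70.RC.T_NUM) (hNEW : Pool.Agent.H70.RC.T_NEW) :
    Pool.Agent.H70.RC.T_LST := by
  classical
  intro V F t hF c
  filter_upwards [hNUM c] with n hn N hN D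
  obtain ⟨h1, h2, h3, h4⟩ := hn N hN
  obtain ⟨m1, m2, m3⟩ := hMUM n N
  have hY : Nonempty ((Fin n → Bool) → Bool) := ⟨fun _ => false⟩
  obtain ⟨l, hl1, hl2⟩ := hNEW (Se n N) ((Fin n → Bool) → Bool) mu
    (fun X σ => GoodS V F D X σ) (2 ^ n + 1) m1 m2 (fun X => by
      have h5 := hMUG V F t hF n N h1 h2 h3 D X
      linarith) (by omega) (by
      rw [Fintype.card_fun, Fintype.card_fun, Fintype.card_bool, Fintype.card_fin]
      exact Nat.pow_le_pow_right (by norm_num) (by omega))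
  refine ⟨l, fun i => m3 _ (hl1 i), fun X => ?_⟩
  convert hl2 X using 3

end Pool.Agent.H92.RC
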